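import Pool.Agent.H638.IB.Final

/-! Iterated intersection bodies of origin-symmetric convex bodies converge to the Euclidean ball
in the Banach-Mazur distance, uniformly. -/

set_option autoImplicit false

open MeasureTheory Set Filter Topology Metric
open scoped Pointwise

namespace Pool.Agent.Results.MP_5ac201_gt.BallAttracts

/-- Euclidean `n`-space. -/
abbrev E (n : ℕ) : Type := EuclideanSpace ℝ (Fin n)

/-- The closed unit ball. -/
def unitBall (n : ℕ) : Set (E n) := closedBall 0 1

/-- Origin-symmetric convex bodies: compact, convex, with nonempty interior and `K = -K`. -/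
structure IsSymConvexBody {n : ℕ} (K : Set (E n)) : Prop where
  isCompact : IsCompact K
  convex : Convex ℝ K
  interior_nonempty : (interior K).Nonempty
  neg_mem : ∀ x ∈ K, -x ∈ K

/-- The hyperplane through the origin orthogonal to `u`. -/
noncomputable abbrev hyp {n : ℕ} (u : E n) : Submodule ℝ (E n) := (ℝ ∙ u)ᗮ

/-- Lebesgue measure of the hyperplane `hyp u`. -/
noncomputable abbrev hypVol {n : ℕ} (u : E n) : Measure (hyp u) := volume

/-- The `(n-1)`-dimensional volume of the section of `K` by the hyperplane through the origin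
orthogonal to `u`. -/
noncomputable def secVol {n : ℕ} (K : Set (E n)) (u : E n) : ℝ :=
  (hypVol u {y : hyp u | (y : E n) ∈ K}).toReal

/-- The intersection body: the star body whose radial function is `secVol K` on unit vectors. -/
def interBody {n : ℕ} (K : Set (E n)) : Set (E n) :=
  {x | ∃ u : E n, ‖u‖ = 1 ∧ ∃ r : ℝ, 0 ≤ r ∧ r ≤ secVol K u ∧ x = r • u}

/-- The image of a set under an invertible linear map. -/
def linImage {n : ℕ} (T : E n ≃ₗ[ℝ] E n) (A : Set (E n)) : Set (E n) := T '' A

/-- The dilate `l B`. -/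
def dilate {n : ℕ} (l : ℝ) (B : Set (E n)) : Set (E n) := l • B

/-- `l ≥ 1`, and `B ⊆ T A ⊆ l B` for some invertible linear map `T`. -/
def Admissible {n : ℕ} (A B : Set (E n)) (l : ℝ) : Prop :=
  1 ≤ l ∧ ∃ T : E n ≃ₗ[ℝ] E n, B ⊆ linImage T A ∧ linImage T A ⊆ dilate l B

/-- The Banach-Mazur distance: the infimum of the `l ≥ 1` such that `B ⊆ T A ⊆ l B` for some
invertible linear map `T`. -/
noncomputable def distBM {n : ℕ} (A B : Set (E n)) : ℝ := sInf {l : ℝ | Admissible A B l}

theorem body_iff {n : ℕ} (K : Set (E n)) : IsSymConvexBody K ↔ Pool.Agent.H638.IB.Body K :=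
  ⟨fun h => ⟨h.1, h.2, h.3, h.4⟩, fun h => ⟨h.1, h.2, h.3, h.4⟩⟩

/-- Let `n ≥ 3`. All iterated intersection bodies of an origin-symmetric convex body `K` are
origin-symmetric convex bodies, and their Banach-Mazur distance to the Euclidean ball tends to
`1`; moreover the convergence is uniform over all origin-symmetric convex bodies. -/
theorem result {n : ℕ} (hn : 3 ≤ n) :
    (∀ K : Set (E n), IsSymConvexBody K →
      (∀ m : ℕ, IsSymConvexBody (interBody^[m] K)) ∧
      Tendsto (fun m : ℕ => distBM (interBody^[m] K) (unitBall n)) atTop (𝓝 1)) ∧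
    ∀ ε : ℝ, 0 < ε → ∃ M : ℕ, ∀ m : ℕ, M ≤ m → ∀ K : Set (E n), IsSymConvexBody K →
      1 ≤ distBM (interBody^[m] K) (unitBall n) ∧
      distBM (interBody^[m] K) (unitBall n) ≤ 1 + ε := by
  have hU := Pool.Agent.H638.IB.UNI_final
  refine ⟨fun K hK => ⟨fun m => ?_, ?_⟩, fun ε hε => ?_⟩
  · rw [body_iff]
    exact Pool.Agent.H638.IB.iter_body Pool.Agent.H638.IB.IBB_final hn K ((body_iff K).1 hK) m
  · exact Pool.Agent.H638.IB.main_tendsto hU hn K ((body_iff K).1 hK)
  · obtain ⟨M, hM⟩ := Pool.Agent.H638.IB.main_uniform hU hn ε hε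
    exact ⟨M, fun m hm K hK => hM m hm K ((body_iff K).1 hK)⟩

end Pool.Agent.Results.MP_5ac201_gt.BallAttracts
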